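import Pool.Agent.Q296.Seq.Defs

/-!
# Basic facts about systems driven by an i.i.d. sequence
-/

namespace Q296.Seq

open MeasureTheory Set
open scoped ENNReal

variable {E S : Type*}

instance [MeasurableSpace E] (ν : Measure E) [IsProbabilityMeasure ν] :
    IsProbabilityMeasure (iid ν) := by
  unfold iid; infer_instance

/-- put `e` in front of the sequence -/
def cons (x : E × (ℕ → E)) : ℕ → E := fun n => Nat.casesOn n x.1 x.2

@[simp] lemma cons_zero (x : E × (ℕ → E)) : cons x 0 = x.1 := rfl

@[simp] lemma cons_succ (x : E × (ℕ → E)) (n : ℕ) : cons x (n + 1) = x.2 n := rfl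

lemma measurable_cons [MeasurableSpace E] : Measurable (cons : E × (ℕ → E) → (ℕ → E)) := by
  refine measurable_pi_lambda _ fun n => ?_
  cases n with
  | zero => exact measurable_fst
  | succ n => exact (measurable_pi_apply n).comp measurable_snd

theorem map_cons [MeasurableSpace E] (ν : Measure E) [IsProbabilityMeasure ν] :
    (ν.prod (iid ν)).map cons = iid ν := by
  classical
  refine Measure.eq_infinitePi _ ?_
  intro s t ht
  obtain ⟨N, hN⟩ : ∃ N, s ⊆ Finset.range (N + 1) := by
    obtain ⟨N, hN⟩ := s.exists_nat_subset_range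
    exact ⟨N, hN.trans (Finset.range_subset_range.2 (Nat.le_succ N))⟩
  set t' : ℕ → Set E := fun i => if i ∈ s then t i else univ with ht'
  have hmt' : ∀ i, MeasurableSet (t' i) := by
    intro i
    simp only [ht']
    split_ifs
    · exact ht i
    · exact MeasurableSet.univ
  have h1 : Set.pi (s : Set ℕ) t = Set.pi ((Finset.range (N + 1) : Finset ℕ) : Set ℕ) t' := by
    ext ω
    simp only [Set.mem_pi, ht']
    constructor
    · intro h i _
      by_cases hi : i ∈ s
      · rw [if_pos hi]; exact h i hi
      · rw [if_neg hi]; trivial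
    · intro h i hi
      have h2 := h i (hN hi)
      rwa [if_pos (by exact_mod_cast hi)] at h2
  have h2 : ∏ i ∈ s, ν (t i) = ∏ i ∈ Finset.range (N + 1), ν (t' i) := by
    rw [← Finset.prod_subset hN]
    · refine Finset.prod_congr rfl fun i hi => ?_
      simp [ht', hi]
    · intro i _ hi
      simp [ht', hi]
  rw [h1, h2, Measure.map_apply measurable_cons
    (MeasurableSet.pi (Finset.countable_toSet _) (fun i _ => hmt' i))]
  have h3 : cons ⁻¹' (Set.pi ((Finset.range (N + 1) : Finset ℕ) : Set ℕ) t') =
      (t' 0) ×ˢ (Set.pi ((Finset.range N : Finset ℕ) : Set ℕ) (fun i => t' (i + 1))) := by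
    ext x
    simp only [Set.mem_preimage, Set.mem_pi, Set.mem_prod, Finset.coe_range, Set.mem_Iio]
    constructor
    · intro h
      refine ⟨h 0 (Nat.succ_pos N), fun i hi => ?_⟩
      exact h (i + 1) (by omega)
    · rintro ⟨h0, h⟩ i hi
      cases i with
      | zero => exact h0
      | succ i => exact h i (by omega)
  rw [h3, Measure.prod_prod, iid, Measure.infinitePi_pi _ (fun i _ => hmt' (i + 1)),
    Finset.prod_range_succ', mul_comm]

lemma lintegral_cons [MeasurableSpace E] (ν : Measure E) [IsProbabilityMeasure ν]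
    {F : (ℕ → E) → ℝ≥0∞} (hF : Measurable F) :
    ∫⁻ ω, F ω ∂(iid ν) = ∫⁻ e, ∫⁻ ω, F (cons (e, ω)) ∂(iid ν) ∂ν := by
  conv_lhs => rw [← map_cons ν]
  rw [lintegral_map hF measurable_cons]
  exact lintegral_prod (fun x => F (cons x)) (hF.comp measurable_cons).aemeasurable

lemma measure_cons [MeasurableSpace E] (ν : Measure E) [IsProbabilityMeasure ν]
    {B : Set (ℕ → E)} (hB : MeasurableSet B) :
    iid ν B = ∫⁻ e, iid ν {ω | cons (e, ω) ∈ B} ∂ν := by
  conv_lhs => rw [← map_cons ν]
  rw [Measure.map_apply measurable_cons hB, Measure.prod_apply (measurable_cons hB)]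
  rfl

lemma state_cons (upd : S → E → S) (s : S) (e : E) (ω : ℕ → E) (t : ℕ) :
    state upd s (cons (e, ω)) (t + 1) = state upd (upd s e) ω t := by
  induction t with
  | zero => rfl
  | succ t ih =>
    rw [state, ih]
    rfl

lemma state_add (upd : S → E → S) (s : S) (ω : ℕ → E) (t u : ℕ) :
    state upd s ω (t + u) = state upd (state upd s ω t) (fun i => ω (t + i)) u := by
  induction u with
  | zero => rfl
  | succ u ih =>
    rw [← add_assoc, state, ih]
    rfl

/-- the state at time `t` depends on the first `t` driving variables only -/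
lemma state_congr (upd : S → E → S) (s : S) {ω ω' : ℕ → E} {t : ℕ} (h : ∀ i < t, ω i = ω' i) :
    state upd s ω t = state upd s ω' t := by
  induction t with
  | zero => rfl
  | succ t ih =>
    rw [state, state, ih (fun i hi => h i (by omega)), h t (by omega)]

lemma measurableSet_state [MeasurableSpace E] [Countable E] [MeasurableSingletonClass E]
    (upd : S → E → S) (s : S) (t : ℕ) (A : Set S) :
    MeasurableSet {ω : ℕ → E | state upd s ω t ∈ A} := by
  rcases isEmpty_or_nonempty E with hE | ⟨⟨e0⟩⟩
  · have : {ω : ℕ → E | state upd s ω t ∈ A} = ∅ := by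
      ext ω; exact (hE.false (ω 0)).elim
    rw [this]; exact MeasurableSet.empty
  set R : (ℕ → E) → (Fin t → E) := fun ω i => ω i.val with hR
  have hRm : Measurable R := measurable_pi_lambda _ fun i => measurable_pi_apply _
  set ext : (Fin t → E) → (ℕ → E) := fun v i => if h : i < t then v ⟨i, h⟩ else e0 with hext
  have h1 : {ω : ℕ → E | state upd s ω t ∈ A} = R ⁻¹' {v | state upd s (ext v) t ∈ A} := by
    ext ω
    simp only [mem_ofPred_eq, mem_preimage]
    rw [state_congr upd s (ω := ω) (ω' := ext (R ω))]
    intro i hi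
    simp [hext, hR, hi]
  rw [h1]
  exact hRm (Set.to_countable _).measurableSet

/-- the event that the state is outside `A` up to time `t` -/
def surv (upd : S → E → S) (A : Set S) (s : S) (t : ℕ) : Set (ℕ → E) :=
  {ω | ∀ u ≤ t, state upd s ω u ∉ A}

lemma measurableSet_surv [MeasurableSpace E] [Countable E] [MeasurableSingletonClass E]
    (upd : S → E → S) (A : Set S) (s : S) (t : ℕ) : MeasurableSet (surv upd A s t) := by
  have : surv upd A s t = ⋂ u ∈ Finset.range (t + 1), {ω | state upd s ω u ∈ Aᶜ} := by
    ext ω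
    simp only [surv, mem_ofPred_eq, mem_iInter, Finset.mem_range, mem_compl_iff]
    constructor
    · intro h u hu; exact h u (by omega)
    · intro h u hu; exact h u (by omega)
  rw [this]
  exact Finset.measurableSet_biInter _ (fun u _ => measurableSet_state upd s u Aᶜ)

lemma surv_antitone (upd : S → E → S) (A : Set S) (s : S) {t t' : ℕ} (h : t ≤ t') :
    surv upd A s t' ⊆ surv upd A s t := fun _ hω u hu => hω u (hu.trans h)

lemma surv_add (upd : S → E → S) (A : Set S) (s : S) (t u : ℕ) (ω : ℕ → E) :
    ω ∈ surv upd A s (t + u) ↔ ω ∈ surv upd A s t ∧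
      (fun i => ω (t + i)) ∈ surv upd A (state upd s ω t) u := by
  simp only [surv, mem_ofPred_eq]
  constructor
  · intro h
    refine ⟨fun v hv => h v (by omega), fun v hv => ?_⟩
    rw [← state_add]
    exact h (t + v) (by omega)
  · rintro ⟨h1, h2⟩ v hv
    rcases Nat.lt_or_ge t v with h | h
    · obtain ⟨w, rfl⟩ := Nat.exists_eq_add_of_le h.le
      rw [state_add]
      exact h2 w (by omega)
    · exact h1 v h

lemma cons_mem_surv_succ (upd : S → E → S) (A : Set S) (s : S) (t : ℕ) (e : E) (ω : ℕ → E) :
    cons (e, ω) ∈ surv upd A s (t + 1) ↔ s ∉ A ∧ ω ∈ surv upd A (upd s e) t := by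
  simp only [surv, mem_ofPred_eq]
  constructor
  · intro h
    refine ⟨h 0 (Nat.zero_le _), fun u hu => ?_⟩
    rw [← state_cons]
    exact h (u + 1) (by omega)
  · rintro ⟨h0, h⟩ u hu
    cases u with
    | zero => exact h0
    | succ u => rw [state_cons]; exact h u (by omega)

lemma measure_surv_succ [MeasurableSpace E] [Countable E] [MeasurableSingletonClass E]
    (ν : Measure E) [IsProbabilityMeasure ν]
    (upd : S → E → S) (A : Set S) (s : S) (t : ℕ) (hs : s ∉ A) :
    iid ν (surv upd A s (t + 1)) = ∫⁻ e, iid ν (surv upd A (upd s e) t) ∂ν := by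
  rw [measure_cons ν (measurableSet_surv upd A s (t + 1))]
  refine lintegral_congr fun e => ?_
  congr 1
  ext ω
  rw [mem_ofPred_eq, cons_mem_surv_succ]
  simp [hs]

lemma measure_surv_mem [MeasurableSpace E] (ν : Measure E)
    (upd : S → E → S) (A : Set S) (s : S) (t : ℕ) (hs : s ∈ A) :
    iid ν (surv upd A s t) = 0 := by
  have : surv upd A s t = ∅ := by
    ext ω
    simp only [surv, mem_ofPred_eq, mem_empty_iff_false, iff_false]
    intro h
    exact h 0 (Nat.zero_le _) hs
  rw [this, measure_empty]

lemma hitTime_eq_tsum (upd : S → E → S) (A : Set S) (s : S) (ω : ℕ → E) :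
    hitTime upd A s ω = ∑' t : ℕ, (surv upd A s t).indicator (fun _ => (1 : ℝ≥0∞)) ω := by
  classical
  by_cases h : ∃ t, state upd s ω t ∈ A
  · -- the first hitting time
    set T := Nat.find h with hT
    have hmem : state upd s ω T ∈ A := Nat.find_spec h
    have hmin : ∀ t < T, state upd s ω t ∉ A := fun t ht => Nat.find_min h ht
    have h1 : hitTime upd A s ω = (T : ℝ≥0∞) := by
      refine le_antisymm (iInf₂_le T hmem) (le_iInf₂ fun t ht => ?_)
      have : T ≤ t := Nat.find_min' h ht
      exact_mod_cast this
    have h2 : ∀ t, (surv upd A s t).indicator (fun _ => (1 : ℝ≥0∞)) ω =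
        if t < T then 1 else 0 := by
      intro t
      by_cases ht : t < T
      · rw [if_pos ht, indicator_of_mem]
        intro u hu
        exact hmin u (by omega)
      · rw [if_neg ht, indicator_of_notMem]
        intro hsurv
        exact hsurv T (by omega) hmem
    rw [h1]
    simp only [h2]
    rw [tsum_eq_sum (s := Finset.range T)]
    · rw [Finset.sum_congr rfl (fun t ht => if_pos (Finset.mem_range.1 ht))]
      simp
    · intro t ht
      rw [if_neg (by simpa using ht)]
  · push Not at h
    have h1 : hitTime upd A s ω = ∞ := by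
      unfold hitTime
      simp only [iInf_eq_top]
      intro t ht
      exact absurd ht (h t)
    have h2 : ∀ t, (surv upd A s t).indicator (fun _ => (1 : ℝ≥0∞)) ω = 1 := by
      intro t
      rw [indicator_of_mem]
      intro u _
      exact h u
    rw [h1]
    simp only [h2]
    rw [ENNReal.tsum_const_eq_top_of_ne_zero one_ne_zero]

lemma meanHit_eq_tsum [MeasurableSpace E] [Countable E] [MeasurableSingletonClass E]
    (ν : Measure E) (upd : S → E → S) (A : Set S) (s : S) :
    meanHit ν upd A s = ∑' t : ℕ, iid ν (surv upd A s t) := by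
  unfold meanHit
  simp only [hitTime_eq_tsum]
  rw [lintegral_tsum]
  · refine tsum_congr fun t => ?_
    rw [lintegral_indicator (measurableSet_surv upd A s t)]
    simp
  · intro t
    exact (measurable_const.indicator (measurableSet_surv upd A s t)).aemeasurable

/-- If from every state the set is hit within `k` steps with probability at least `1 - q`, the
mean hitting time is at most `k / (1 - q)`. -/
lemma surv_mul_le [MeasurableSpace E] [Countable E] [MeasurableSingletonClass E]
    (ν : Measure E) [IsProbabilityMeasure ν] (upd : S → E → S) (A : Set S) (G : Set S)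
    (hG : ∀ s ∈ G, ∀ e, upd s e ∈ G) (k : ℕ) (q : ℝ≥0∞)
    (h : ∀ s ∈ G, iid ν (surv upd A s k) ≤ q) (m : ℕ) :
    ∀ s ∈ G, iid ν (surv upd A s (m * k)) ≤ q ^ m := by
  -- first a general submultiplicativity
  have hmul : ∀ (j u : ℕ) (c : ℝ≥0∞), (∀ s ∈ G, iid ν (surv upd A s u) ≤ c) →
      ∀ s ∈ G, iid ν (surv upd A s (j + u)) ≤ c * iid ν (surv upd A s j) := by
    intro j
    induction j with
    | zero =>
      intro u c hc s hs
      rw [Nat.zero_add]
      by_cases hsA : s ∈ A
      · rw [measure_surv_mem ν upd A s _ hsA]; exact bot_le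
      · have : iid ν (surv upd A s 0) = 1 := by
          have h0 : surv upd A s 0 = univ := by
            ext ω
            simp only [surv, mem_ofPred_eq, mem_univ, iff_true]
            intro v hv
            have : v = 0 := by omega
            subst this
            exact hsA
          rw [h0, measure_univ]
        rw [this, mul_one]
        exact hc s hs
    | succ j ih =>
      intro u c hc s hs
      by_cases hsA : s ∈ A
      · rw [measure_surv_mem ν upd A s _ hsA]; exact bot_le
      · have e1 : j + 1 + u = (j + u) + 1 := by ring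
        rw [e1, measure_surv_succ ν upd A s _ hsA, measure_surv_succ ν upd A s _ hsA,
          ← lintegral_const_mul _ (measurable_of_countable _)]
        exact lintegral_mono fun e => ih u c hc _ (hG s hs e)
  intro s hs
  induction m with
  | zero =>
    rw [Nat.zero_mul, pow_zero]
    exact prob_le_one
  | succ m ih =>
    rw [Nat.succ_mul, pow_succ]
    have := hmul (m * k) k q h s hs
    rw [mul_comm (q ^ m)]
    exact this.trans (mul_le_mul_right ih q)

lemma tsum_le_mul_tsum (a : ℕ → ℝ≥0∞) (ha : Antitone a) (k : ℕ) (hk : 0 < k) :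
    ∑' t, a t ≤ k * ∑' m, a (m * k) := by
  have : NeZero k := ⟨hk.ne'⟩
  rw [← (Nat.divModEquiv k).symm.tsum_eq a, ENNReal.tsum_prod', ← ENNReal.tsum_mul_left]
  refine ENNReal.tsum_le_tsum fun m => ?_
  rw [tsum_fintype]
  calc ∑ r : Fin k, a ((Nat.divModEquiv k).symm (m, r)) ≤ ∑ _r : Fin k, a (m * k) := by
        refine Finset.sum_le_sum fun r _ => ha ?_
        simp [Nat.divModEquiv]
    _ = k * a (m * k) := by simp

lemma meanHit_le [MeasurableSpace E] [Countable E] [MeasurableSingletonClass E]
    (ν : Measure E) [IsProbabilityMeasure ν] (upd : S → E → S) (A : Set S) (G : Set S)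
    (hG : ∀ s ∈ G, ∀ e, upd s e ∈ G) (k : ℕ) (hk : 0 < k) (q : ℝ≥0∞)
    (h : ∀ s ∈ G, iid ν (surv upd A s k) ≤ q) (s : S) (hs : s ∈ G) :
    meanHit ν upd A s ≤ k * (1 - q)⁻¹ := by
  rw [meanHit_eq_tsum, ← ENNReal.tsum_geometric]
  refine (tsum_le_mul_tsum _ (fun t t' htt => measure_mono (surv_antitone upd A s htt)) k hk).trans
    ?_
  refine mul_le_mul_right (ENNReal.tsum_le_tsum fun m => ?_) _
  exact surv_mul_le ν upd A G hG k q h m s hs

/-- a lower bound for the mean hitting time -/
lemma le_meanHit [MeasurableSpace E] (ν : Measure E) (upd : S → E → S) (A : Set S) (s : S)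
    (B : Set (ℕ → E)) (hB : MeasurableSet B) (T : ℕ)
    (h : ∀ ω ∈ B, ∀ t < T, state upd s ω t ∉ A) :
    (T : ℝ≥0∞) * iid ν B ≤ meanHit ν upd A s := by
  unfold meanHit
  rw [← lintegral_indicator_const hB]
  refine lintegral_mono fun ω => ?_
  by_cases hω : ω ∈ B
  · rw [indicator_of_mem hω]
    refine le_iInf₂ fun t ht => ?_
    have : T ≤ t := by
      by_contra hcon
      push Not at hcon
      exact h ω hω t hcon ht
    exact_mod_cast this
  · rw [indicator_of_notMem hω]; exact bot_le

/-- the law of the first driving variable -/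
lemma iid_first [MeasurableSpace E] (ν : Measure E) [IsProbabilityMeasure ν] {B : Set E}
    (hB : MeasurableSet B) (i : ℕ) : iid ν {ω | ω i ∈ B} = ν B := by
  have h := (measurePreserving_eval_infinitePi (fun _ : ℕ => ν) i).measure_preimage
    hB.nullMeasurableSet
  exact h

end Q296.Seq
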