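import Mathlib

/-!
# Systems driven by an i.i.d. sequence

`E` is the space of the driving variables, `S` the state space, `upd s e` the state after `s` when
the driving variable is `e`.
-/

namespace Q296.Seq

open MeasureTheory
open scoped ENNReal

variable {E S : Type*}

/-- The law of an i.i.d. sequence with common law `ν`. -/
noncomputable def iid [MeasurableSpace E] (ν : Measure E) : Measure (ℕ → E) :=
  Measure.infinitePi (fun _ => ν)

/-- The state at time `t` when the driving sequence is `ω`. -/
def state (upd : S → E → S) (s : S) (ω : ℕ → E) : ℕ → S
  | 0 => s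
  | t + 1 => upd (state upd s ω t) (ω t)

/-- The first time at which the state is in `A` (`∞` if there is none). -/
noncomputable def hitTime (upd : S → E → S) (A : Set S) (s : S) (ω : ℕ → E) : ℝ≥0∞ :=
  ⨅ (t : ℕ) (_ : state upd s ω t ∈ A), (t : ℝ≥0∞)

/-- The expectation of the first time at which the state is in `A`. -/
noncomputable def meanHit [MeasurableSpace E] (ν : Measure E) (upd : S → E → S) (A : Set S)
    (s : S) : ℝ≥0∞ :=
  ∫⁻ ω, hitTime upd A s ω ∂(iid ν)

end Q296.Seq
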